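import Pool.Agent.QSX.StmtsG

/-! # Squad QSX, row LEN: the length of an invertible matrix -/

set_option autoImplicit false

namespace Pool.Agent.QSX.H86

open Matrix Finset

theorem nrm_nonneg {m : ℕ} (A : Matrix (Fin m) (Fin m) ℝ) : 0 ≤ nrm A := norm_nonneg _

theorem nrm_zero_dim (A : Matrix (Fin 0) (Fin 0) ℝ) : nrm A = 0 := by
  unfold nrm
  have h : A = 0 := Subsingleton.elim _ _
  rw [h, map_zero, norm_zero]

theorem len_zero_dim (g : (Matrix (Fin 0) (Fin 0) ℝ)ˣ) : len g = 0 := by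
  unfold len
  rw [nrm_zero_dim, nrm_zero_dim, max_self, Real.log_zero]

/-- the maximum in the definition of `len` -/
noncomputable def mx {m : ℕ} (g : (Matrix (Fin m) (Fin m) ℝ)ˣ) : ℝ :=
  max (nrm (g : Matrix (Fin m) (Fin m) ℝ))
    (nrm ((g⁻¹ : (Matrix (Fin m) (Fin m) ℝ)ˣ) : Matrix (Fin m) (Fin m) ℝ))

theorem len_eq {m : ℕ} (g : (Matrix (Fin m) (Fin m) ℝ)ˣ) : len g = Real.log (mx g) := rfl

theorem one_le_mx (hN : NrmStmt) {m : ℕ} (hm : 0 < m) (g : (Matrix (Fin m) (Fin m) ℝ)ˣ) :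
    1 ≤ mx g := by
  obtain ⟨-, -, h3, h4⟩ := hN m
  have h5 := h3 (g : Matrix (Fin m) (Fin m) ℝ)
    ((g⁻¹ : (Matrix (Fin m) (Fin m) ℝ)ˣ) : Matrix (Fin m) (Fin m) ℝ)
  rw [Units.mul_inv, h4 hm] at h5
  by_contra hc
  push Not at hc
  unfold mx at hc
  rw [max_lt_iff] at hc
  have h6 := nrm_nonneg (g : Matrix (Fin m) (Fin m) ℝ)
  have h7 := nrm_nonneg ((g⁻¹ : (Matrix (Fin m) (Fin m) ℝ)ˣ) : Matrix (Fin m) (Fin m) ℝ)
  have h8 := mul_lt_one_of_nonneg_of_lt_one_left h6 hc.1 hc.2.le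
  linarith

theorem mx_inv {m : ℕ} (g : (Matrix (Fin m) (Fin m) ℝ)ˣ) : mx g⁻¹ = mx g := by
  unfold mx
  rw [inv_inv, max_comm]

theorem mx_mul (hN : NrmStmt) {m : ℕ} (g h : (Matrix (Fin m) (Fin m) ℝ)ˣ) :
    mx (g * h) ≤ mx g * mx h := by
  obtain ⟨-, -, h3, -⟩ := hN m
  have hg : 0 ≤ mx g := le_max_of_le_left (nrm_nonneg _)
  unfold mx at *
  refine max_le ?_ ?_
  · rw [Units.val_mul]
    exact (h3 _ _).trans (mul_le_mul (le_max_left _ _) (le_max_left _ _) (nrm_nonneg _) hg)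
  · rw [_root_.mul_inv_rev, Units.val_mul, mul_comm (max _ _)]
    refine (h3 _ _).trans (mul_le_mul (le_max_right _ _) (le_max_right _ _) (nrm_nonneg _) ?_)
    exact le_max_of_le_left (nrm_nonneg _)

theorem len (hN : NrmStmt) : LenStmt := by
  intro m g h
  rcases Nat.eq_zero_or_pos m with hm | hm
  · subst hm
    refine ⟨?_, ?_, ?_, fun i => i.elim0, fun h0 => absurd h0 (lt_irrefl 0),
      fun _ => len_zero_dim g⟩
    · rw [len_zero_dim]
    · rw [len_zero_dim, len_zero_dim]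
    · rw [len_zero_dim, len_zero_dim, len_zero_dim, add_zero]
  · obtain ⟨h1, h2, -, -⟩ := hN m
    have hg := one_le_mx hN hm g
    have hh := one_le_mx hN hm h
    have hgh := one_le_mx hN hm (g * h)
    refine ⟨?_, ?_, ?_, ?_, ?_, fun h0 => absurd h0 (by omega)⟩
    · rw [len_eq]
      exact Real.log_nonneg hg
    · rw [len_eq, len_eq, mx_inv]
    · rw [len_eq, len_eq, len_eq, ← Real.log_mul (by linarith) (by linarith)]
      exact Real.log_le_log (by linarith) (mx_mul hN g h)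
    · intro i j
      rw [len_eq, Real.exp_log (by linarith)]
      exact (h1 _ i j).trans (le_max_left _ _)
    · intro _
      rw [len_eq]
      refine Real.log_le_log (by linarith) ?_
      exact max_le_max (h2 _) (h2 _)

end Pool.Agent.QSX.H86
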