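import Pool.Agent.QSX.StmtsA

/-! # Squad QSX, row NFL: `n_F` is a Lie algebra of strictly upper triangular matrices -/

set_option autoImplicit false

namespace Pool.Agent.QSX.H86

open Matrix Finset

theorem nF_su (Y : Dat) (F : Type) [CommRing F] [Algebra ℝ F] : ∀ x ∈ Y.nF F, SU x := by
  intro x hx
  unfold Dat.nF at hx
  induction hx using Submodule.span_induction with
  | mem x h =>
    obtain ⟨y, hy, rfl⟩ := h
    intro i j hij
    change algebraMap ℝ F (y i j) = 0
    rw [Y.su y hy i j hij, map_zero]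
  | zero => exact SU.zero
  | add x y _ _ h1 h2 => exact h1.add h2
  | smul a x _ h => exact h.smul a

theorem nF_gen (Y : Dat) (F : Type) [CommRing F] [Algebra ℝ F]
    (y : Matrix (Fin Y.m) (Fin Y.m) ℝ) (hy : y ∈ Y.n) : y.map (algebraMap ℝ F) ∈ Y.nF F :=
  Submodule.subset_span ⟨y, hy, rfl⟩

theorem nF_lie (Y : Dat) (F : Type) [CommRing F] [Algebra ℝ F] :
    ∀ x ∈ Y.nF F, ∀ y ∈ Y.nF F, x * y - y * x ∈ Y.nF F := by
  intro x hx y hy
  have hx' := hx
  unfold Dat.nF at hx'
  induction hx' using Submodule.span_induction with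
  | mem x h =>
    obtain ⟨a, ha, rfl⟩ := h
    have hy' := hy
    unfold Dat.nF at hy'
    induction hy' using Submodule.span_induction with
    | mem y h =>
      obtain ⟨b, hb, rfl⟩ := h
      have e : (a.map (algebraMap ℝ F)) * (b.map (algebraMap ℝ F)) -
          (b.map (algebraMap ℝ F)) * (a.map (algebraMap ℝ F)) =
          (a * b - b * a).map (algebraMap ℝ F) := by
        ext i j
        rw [Matrix.sub_apply, Matrix.mul_apply, Matrix.mul_apply, Matrix.map_apply,
          Matrix.sub_apply, map_sub, Matrix.mul_apply, Matrix.mul_apply, map_sum, map_sum]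
        simp only [map_mul, Matrix.map_apply]
      change (a.map (algebraMap ℝ F)) * (b.map (algebraMap ℝ F)) -
          (b.map (algebraMap ℝ F)) * (a.map (algebraMap ℝ F)) ∈ Y.nF F
      rw [e]
      exact nF_gen Y F _ (Y.lie a ha b hb)
    | zero => rw [mul_zero, zero_mul, sub_zero]; exact zero_mem _
    | add y z h1 h2 ih1 ih2 =>
      have e : ∀ c : Matrix (Fin Y.m) (Fin Y.m) F,
          c * (y + z) - (y + z) * c = (c * y - y * c) + (c * z - z * c) := by
        intro c; rw [mul_add, add_mul]; abel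
      rw [e]
      exact add_mem (ih1 h1) (ih2 h2)
    | smul c y h ih =>
      have e : ∀ d : Matrix (Fin Y.m) (Fin Y.m) F, d * (c • y) - (c • y) * d = c • (d * y - y * d) := by
        intro d; rw [Matrix.mul_smul, Matrix.smul_mul, smul_sub]
      rw [e]
      exact Submodule.smul_mem _ _ (ih h)
  | zero => rw [mul_zero, zero_mul, sub_zero]; exact zero_mem _
  | add x z h1 h2 ih1 ih2 =>
    have e : (x + z) * y - y * (x + z) = (x * y - y * x) + (z * y - y * z) := by
      rw [mul_add, add_mul]; abel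
    rw [e]
    exact add_mem (ih1 h1) (ih2 h2)
  | smul c x h ih =>
    have e : (c • x) * y - y * (c • x) = c • (x * y - y * x) := by
      rw [Matrix.mul_smul, Matrix.smul_mul, smul_sub]
    rw [e]
    exact Submodule.smul_mem _ _ (ih h)

theorem nfl (hLGP : LgpStmt) : NflStmt := by
  intro Y F _ _
  refine ⟨nF_su Y F, nF_lie Y F, ?_⟩
  obtain ⟨G, hG⟩ := hLGP F Y.m ((Y.nF F).restrictScalars ℝ)
    (fun x hx => nF_su Y F x hx) (fun x hx y hy => nF_lie Y F x hx y hy)
  exact ⟨G, hG⟩

end Pool.Agent.QSX.H86
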